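import Pool.Agent.H30.Defs

/-!
# Reciprocal sums along trajectories of the 3x+1 map: consequences of uniform positive density

`Dens c C` is the uniform positive density theorem of preimages (proved in `Pool.Agent.H30.PD`). It implies that the sum of
`1/|a|` over the distinct nonzero elements `a` of any family of pairwise disjoint trajectories is bounded by an absolute constant.
-/

set_option autoImplicit false

namespace Pool.Agent.H85.RS

open Finset Pool.Agent.H30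

/-- Uniform positive density of preimages. -/
def Dens (c C : ℝ) : Prop := ∀ y : ℤ, ¬ (3 : ℤ) ∣ y → ∀ x : ℝ, C * |(y : ℝ)| ≤ x →
    c * x / |(y : ℝ)| ≤ (Nat.card {n : ℤ | |(n : ℝ)| ≤ x ∧ ∃ k : ℕ, T^[k] n = y} : ℝ)

/-! ### Elementary properties of `T` -/

lemma T_even {n : ℤ} (h : n % 2 = 0) : T n = n / 2 := by simp [T, h]

lemma T_odd {n : ℤ} (h : n % 2 = 1) : T n = (3 * n + 1) / 2 := by simp [T, h]

lemma T_ne_zero {n : ℤ} (h : n ≠ 0) : T n ≠ 0 := by
  unfold T; split_ifs <;> omega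

lemma iter_ne_zero {n : ℤ} (h : n ≠ 0) (k : ℕ) : T^[k] n ≠ 0 := by
  induction k with
  | zero => simpa
  | succ k ih => rw [Function.iterate_succ_apply']; exact T_ne_zero ih

lemma T_three_mul {a : ℤ} (h : a % 2 = 1) : T (3 * a + 1) = T a := by
  have h1 : (3 * a + 1) % 2 = 0 := by omega
  rw [T_even h1, T_odd h]

/-- `T` is injective on periodic points. -/
lemma per_inj {a b : ℤ} {p q : ℕ} (hp : 1 ≤ p) (hq : 1 ≤ q) (ha : T^[p] a = a) (hb : T^[q] b = b)
    (h : T a = T b) : a = b := by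
  have h1 : T^[p * q] a = a := by
    rw [Function.iterate_mul]; exact Function.iterate_fixed ha q
  have h2 : T^[p * q] b = b := by
    rw [mul_comm, Function.iterate_mul]; exact Function.iterate_fixed hb p
  obtain ⟨r, hr⟩ : ∃ r, p * q = r + 1 := ⟨p * q - 1, by have := Nat.mul_pos hp hq; omega⟩
  rw [hr, Function.iterate_succ_apply] at h1 h2
  rw [← h1, ← h2, h]

/-- A finite union of disjoint sets of preimages. -/
theorem sum_inv_le {c C : ℝ} (hc : 0 < c) (hC : 0 < C) (hD : Dens c C) (A : Set ℤ)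
    (hA : ∀ a ∈ A, T a ∈ A) (F : Finset ℤ)
    (hF : ∀ a ∈ F, a ∈ A ∧ a % 2 = 1 ∧ 3 * a + 1 ∉ A) :
    ∑ a ∈ F, 1 / |(a : ℝ)| ≤ 12 / c := by
  classical
  have hAk : ∀ a ∈ A, ∀ k : ℕ, T^[k] a ∈ A := by
    intro a ha k
    induction k with
    | zero => simpa
    | succ k ih => rw [Function.iterate_succ_apply']; exact hA _ ih
  -- a large `x`
  obtain ⟨x, hx1, hx⟩ : ∃ x : ℝ, 1 ≤ x ∧ ∀ a ∈ F, C * |((3 * a + 1 : ℤ) : ℝ)| ≤ x := by
    refine ⟨1 + ∑ a ∈ F, C * |((3 * a + 1 : ℤ) : ℝ)|, ?_, ?_⟩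
    · have : 0 ≤ ∑ a ∈ F, C * |((3 * a + 1 : ℤ) : ℝ)| := sum_nonneg fun a _ => by positivity
      linarith
    · intro a ha
      have := single_le_sum (f := fun a : ℤ => C * |((3 * a + 1 : ℤ) : ℝ)|)
        (fun a _ => by positivity) ha
      linarith
  -- the box
  set B : Finset ℤ := Finset.Icc (-⌊x⌋) ⌊x⌋ with hB
  have hxf : 0 ≤ ⌊x⌋ := Int.floor_nonneg.2 (by linarith)
  have hBc : (B.card : ℝ) ≤ 3 * x := by
    rw [hB, Int.card_Icc]
    have h1 : ((⌊x⌋ + 1 - -⌊x⌋).toNat : ℤ) = 2 * ⌊x⌋ + 1 := by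
      rw [Int.toNat_of_nonneg (by omega)]; ring
    have h2 : ((⌊x⌋ + 1 - -⌊x⌋).toNat : ℝ) = 2 * (⌊x⌋ : ℝ) + 1 := by exact_mod_cast h1
    rw [h2]
    have := Int.floor_le x
    linarith
  have hmemB : ∀ n : ℤ, n ∈ B ↔ |(n : ℝ)| ≤ x := by
    intro n
    rw [hB, mem_Icc, abs_le]
    constructor
    · rintro ⟨h1, h2⟩
      have h3 : (n : ℝ) ≤ ⌊x⌋ := by exact_mod_cast h2
      have h4 : (-⌊x⌋ : ℝ) ≤ n := by exact_mod_cast h1
      have := Int.floor_le x
      constructor <;> linarith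
    · rintro ⟨h1, h2⟩
      constructor
      · have : -n ≤ ⌊x⌋ := Int.le_floor.2 (by push_cast; linarith)
        omega
      · exact Int.le_floor.2 h2
  let P : ℤ → Finset ℤ := fun a => B.filter fun n => ∃ k : ℕ, T^[k] n = 3 * a + 1
  have hcard : ∀ a : ℤ, Nat.card {n : ℤ | |(n : ℝ)| ≤ x ∧ ∃ k : ℕ, T^[k] n = 3 * a + 1} = (P a).card := by
    intro a
    have : {n : ℤ | |(n : ℝ)| ≤ x ∧ ∃ k : ℕ, T^[k] n = 3 * a + 1} = ((P a : Finset ℤ) : Set ℤ) := by
      ext n
      simp only [Set.mem_ofPred_eq, P, coe_filter, hmemB]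
    rw [this]
    simp
  have hdisj : ∀ a ∈ F, ∀ b ∈ F, a ≠ b → Disjoint (P a) (P b) := by
    have key : ∀ a ∈ F, ∀ b ∈ F, a ≠ b → ∀ m : ℤ, ∀ i j : ℕ, i ≤ j → T^[i] m = 3 * a + 1 →
        T^[j] m = 3 * b + 1 → False := by
      intro a ha b hb hab m i j hij h1 h2
      rcases hij.eq_or_lt with h | h
      · subst h
        rw [h1] at h2
        apply hab; omega
      · obtain ⟨d, rfl⟩ : ∃ d, j = d + (i + 1) := ⟨j - (i + 1), by omega⟩
        have h3 : T^[i + 1] m = T a := by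
          rw [Function.iterate_succ_apply', h1, T_three_mul (hF a ha).2.1]
        rw [Function.iterate_add_apply, h3] at h2
        apply (hF b hb).2.2
        rw [← h2]
        exact hAk _ (hA _ (hF a ha).1) d
    intro a ha b hb hab
    rw [Finset.disjoint_left]
    intro m hm hm'
    obtain ⟨i, hi⟩ := (mem_filter.1 hm).2
    obtain ⟨j, hj⟩ := (mem_filter.1 hm').2
    rcases le_total i j with h | h
    · exact key a ha b hb hab m i j h hi hj
    · exact key b hb a ha (Ne.symm hab) m j i h hj hi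
  have hsum : ∑ a ∈ F, ((P a).card : ℝ) ≤ 3 * x := by
    have h1 : ∑ a ∈ F, (P a).card = (F.biUnion P).card := (card_biUnion hdisj).symm
    have h2 : (F.biUnion P).card ≤ B.card := card_le_card (by
      rw [biUnion_subset]; intro a _; exact filter_subset _ _)
    have h3 : ((∑ a ∈ F, (P a).card : ℕ) : ℝ) ≤ B.card := by rw [h1]; exact_mod_cast h2
    push_cast at h3
    linarith
  have hx0 : 0 < x := by linarith
  have hterm : ∀ a ∈ F, c * x / 4 * (1 / |(a : ℝ)|) ≤ ((P a).card : ℝ) := by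
    intro a ha
    have hodd := (hF a ha).2.1
    have h3 : ¬ (3 : ℤ) ∣ 3 * a + 1 := by omega
    have h1 := hD (3 * a + 1) h3 x (hx a ha)
    rw [hcard a] at h1
    refine le_trans ?_ h1
    have ha0 : (1 : ℝ) ≤ |(a : ℝ)| := by
      have : a ≠ 0 := by omega
      have : (1 : ℤ) ≤ |a| := Int.one_le_abs this
      exact_mod_cast this
    have hb0 : (0 : ℝ) < |((3 * a + 1 : ℤ) : ℝ)| := by
      have : (3 * a + 1 : ℤ) ≠ 0 := by omega
      positivity
    have hb1 : |((3 * a + 1 : ℤ) : ℝ)| ≤ 4 * |(a : ℝ)| := by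
      push_cast
      calc |3 * (a : ℝ) + 1| ≤ |3 * (a : ℝ)| + |1| := abs_add_le _ _
        _ = 3 * |(a : ℝ)| + 1 := by rw [abs_mul]; simp
        _ ≤ 4 * |(a : ℝ)| := by linarith
    rw [mul_one_div, div_div, div_le_div_iff₀ (by positivity) hb0]
    have : 0 < c * x := by positivity
    nlinarith
  have hfin : c * x / 4 * ∑ a ∈ F, 1 / |(a : ℝ)| ≤ 3 * x := by
    rw [mul_sum]
    exact (sum_le_sum hterm).trans hsum
  rw [le_div_iff₀ hc]
  have : x * (c * ∑ a ∈ F, 1 / |(a : ℝ)|) ≤ x * 12 := by nlinarith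
  have := le_of_mul_le_mul_left this hx0
  linarith

end Pool.Agent.H85.RS
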