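import Pool.Agent.H85.RS.Traj

/-!
# Growth of single trajectories
-/

set_option autoImplicit false

namespace Pool.Agent.H85.RS

open Finset Pool.Agent.H30

/-- The number of odd terms among the first `k` terms of the trajectory of `n`. -/
def odds (n : ℤ) (k : ℕ) : ℕ := ((range k).filter fun j => T^[j] n % 2 = 1).card

lemma odds_zero (n : ℤ) : odds n 0 = 0 := by simp [odds]

lemma odds_succ_odd {n : ℤ} {k : ℕ} (h : T^[k] n % 2 = 1) : odds n (k + 1) = odds n k + 1 := by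
  unfold odds
  rw [range_add_one, filter_insert, if_pos h, card_insert_of_notMem (by simp)]

lemma odds_succ_even {n : ℤ} {k : ℕ} (h : T^[k] n % 2 = 0) : odds n (k + 1) = odds n k := by
  unfold odds
  rw [range_add_one, filter_insert, if_neg (by omega)]

/-- The correction factors lie between `exp(-2u)` and `exp(u)`. -/
theorem growth_aux {n : ℤ} (hn : n ≠ 0) (k : ℕ) :
    |(T^[k] n : ℝ)| * 2 ^ k ≤
      |(n : ℝ)| * 3 ^ odds n k * Real.exp (∑ j ∈ range k, 1 / |(T^[j] n : ℝ)|) ∧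
    |(n : ℝ)| * 3 ^ odds n k ≤
      |(T^[k] n : ℝ)| * 2 ^ k * Real.exp (∑ j ∈ range k, 1 / |(T^[j] n : ℝ)|) := by
  induction k with
  | zero => simp [odds_zero]
  | succ k ih =>
    obtain ⟨ih1, ih2⟩ := ih
    obtain ⟨a, ha⟩ : ∃ a, a = T^[k] n := ⟨_, rfl⟩
    have ha0 : a ≠ 0 := by rw [ha]; exact iter_ne_zero hn k
    have ha1 : (1 : ℝ) ≤ |(a : ℝ)| := by
      have : (1 : ℤ) ≤ |a| := Int.one_le_abs ha0
      exact_mod_cast this
    have hs : T^[k + 1] n = T a := by rw [Function.iterate_succ_apply', ha]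
    rw [sum_range_succ, hs, ← ha, Real.exp_add]
    rw [← ha] at ih1 ih2
    obtain ⟨E, hE⟩ : ∃ E, E = Real.exp (∑ j ∈ range k, 1 / |(T^[j] n : ℝ)|) := ⟨_, rfl⟩
    rw [← hE] at ih1 ih2 ⊢
    have hEp : 0 < E := by rw [hE]; exact Real.exp_pos _
    obtain ⟨v, hv⟩ : ∃ v, v = 1 / |(a : ℝ)| := ⟨_, rfl⟩
    rw [← hv]
    have hav : |(a : ℝ)| * v = 1 := by rw [hv]; field_simp
    have hv0 : 0 ≤ v := by rw [hv]; positivity
    have hv1 : v ≤ 1 := by rw [hv, div_le_one (by linarith)]; exact ha1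
    have hex : 1 + v ≤ Real.exp v := by linarith [Real.add_one_le_exp v]
    rcases Int.emod_two_eq_zero_or_one a with h | h
    · rw [odds_succ_even (by rw [← ha]; exact h), T_even h]
      have h2 : ((a / 2 : ℤ) : ℝ) = a / 2 := by
        have : a / 2 * 2 = a := by omega
        have : ((a / 2 : ℤ) : ℝ) * 2 = a := by exact_mod_cast this
        linarith
      rw [h2, abs_div, abs_two]
      have e1 : |(a : ℝ)| / 2 * 2 ^ (k + 1) = |(a : ℝ)| * 2 ^ k := by ring
      rw [e1]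
      have hE1 : 1 ≤ Real.exp v := Real.one_le_exp hv0
      have p1 : 0 ≤ |(n : ℝ)| * 3 ^ odds n k * E := by positivity
      have p2 : 0 ≤ |(a : ℝ)| * 2 ^ k * E := by positivity
      constructor
      · calc |(a : ℝ)| * 2 ^ k ≤ |(n : ℝ)| * 3 ^ odds n k * E * 1 := by linarith
          _ ≤ |(n : ℝ)| * 3 ^ odds n k * E * Real.exp v := by gcongr
          _ = _ := by ring
      · calc |(n : ℝ)| * 3 ^ odds n k ≤ |(a : ℝ)| * 2 ^ k * E * 1 := by linarith
          _ ≤ |(a : ℝ)| * 2 ^ k * E * Real.exp v := by gcongr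
          _ = _ := by ring
    · rw [odds_succ_odd (by rw [← ha]; exact h), T_odd h]
      have h2 : (((3 * a + 1) / 2 : ℤ) : ℝ) = (3 * a + 1) / 2 := by
        have : (3 * a + 1) / 2 * 2 = 3 * a + 1 := by omega
        have : (((3 * a + 1) / 2 : ℤ) : ℝ) * 2 = 3 * a + 1 := by exact_mod_cast this
        linarith
      rw [h2, abs_div, abs_two]
      have e1 : |3 * (a : ℝ) + 1| / 2 * 2 ^ (k + 1) = |3 * (a : ℝ) + 1| * 2 ^ k := by ring
      have e2 : |(n : ℝ)| * 3 ^ (odds n k + 1) = 3 * (|(n : ℝ)| * 3 ^ odds n k) := by ring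
      rw [e1, e2]
      -- upper bound
      have u1 : |3 * (a : ℝ) + 1| ≤ 3 * |(a : ℝ)| * Real.exp v := by
        have : |3 * (a : ℝ) + 1| ≤ 3 * |(a : ℝ)| + 1 := by
          calc |3 * (a : ℝ) + 1| ≤ |3 * (a : ℝ)| + |1| := abs_add_le _ _
            _ = 3 * |(a : ℝ)| + 1 := by rw [abs_mul]; simp
        have h3 : 3 * |(a : ℝ)| * (1 + v) ≤ 3 * |(a : ℝ)| * Real.exp v := by gcongr
        have h4 : 3 * |(a : ℝ)| * (1 + v) = 3 * |(a : ℝ)| + 3 := by
          rw [mul_add, mul_one, mul_assoc, hav, mul_one]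
        linarith
      -- lower bound
      have u2 : 3 * |(a : ℝ)| ≤ |3 * (a : ℝ) + 1| * Real.exp v := by
        have h5 : 3 * |(a : ℝ)| - 1 ≤ |3 * (a : ℝ) + 1| := by
          have := abs_sub_abs_le_abs_sub (3 * (a : ℝ)) (-1)
          rw [abs_mul, abs_neg, abs_one, sub_neg_eq_add, abs_of_pos (by norm_num : (0 : ℝ) < 3)] at this
          exact this
        have h6 : 0 ≤ 3 * |(a : ℝ)| - 1 := by linarith
        calc 3 * |(a : ℝ)| ≤ (3 * |(a : ℝ)| - 1) * (1 + v) := by nlinarith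
          _ ≤ |3 * (a : ℝ) + 1| * Real.exp v := by gcongr
      constructor
      · calc |3 * (a : ℝ) + 1| * 2 ^ k ≤ 3 * |(a : ℝ)| * Real.exp v * 2 ^ k := by gcongr
          _ = 3 * (|(a : ℝ)| * 2 ^ k) * Real.exp v := by ring
          _ ≤ 3 * (|(n : ℝ)| * 3 ^ odds n k * E) * Real.exp v := by gcongr
          _ = _ := by ring
      · calc 3 * (|(n : ℝ)| * 3 ^ odds n k) ≤ 3 * (|(a : ℝ)| * 2 ^ k * E) := by gcongr
          _ = 3 * |(a : ℝ)| * (2 ^ k * E) := by ring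
          _ ≤ |3 * (a : ℝ) + 1| * Real.exp v * (2 ^ k * E) := by gcongr
          _ = _ := by ring

/-- **Growth of trajectories.** As long as the iterates are distinct, `|T^k n|` is `|n| 3^N / 2^k` up to an absolute
constant factor. -/
theorem growth {c C : ℝ} (hc : 0 < c) (hC : 0 < C) (hD : Dens c C) {n : ℤ} (hn : n ≠ 0) (k : ℕ)
    (hinj : ∀ i < k, ∀ j < k, T^[i] n = T^[j] n → i = j) :
    ∑ j ∈ range k, 1 / |(T^[j] n : ℝ)| ≤ 240 / c ∧
    |(T^[k] n : ℝ)| * 2 ^ k ≤ Real.exp (240 / c) * (|(n : ℝ)| * 3 ^ odds n k) ∧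
    |(n : ℝ)| * 3 ^ odds n k ≤ Real.exp (240 / c) * (|(T^[k] n : ℝ)| * 2 ^ k) := by
  classical
  have h1 : ∑ j ∈ range k, 1 / |(T^[j] n : ℝ)| ≤ 240 / c := by
    have h2 := recip hc hC hD {n} (by
      intro m hm m' hm' hne
      rw [Set.mem_singleton_iff] at hm hm'
      exact absurd (hm.trans hm'.symm) hne) ((range k).image fun j => T^[j] n) (by
      intro a ha
      obtain ⟨j, _, rfl⟩ := mem_image.1 ha
      exact ⟨iter_ne_zero hn j, n, rfl, j, rfl⟩)
    rwa [sum_image (fun i hi j hj h => hinj i (mem_range.1 hi) j (mem_range.1 hj) h)] at h2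
  obtain ⟨g1, g2⟩ := growth_aux hn k
  have hex := Real.exp_le_exp.2 h1
  refine ⟨h1, ?_, ?_⟩
  · calc |(T^[k] n : ℝ)| * 2 ^ k ≤ _ := g1
      _ ≤ |(n : ℝ)| * 3 ^ odds n k * Real.exp (240 / c) := by gcongr
      _ = _ := by ring
  · calc |(n : ℝ)| * 3 ^ odds n k ≤ _ := g2
      _ ≤ |(T^[k] n : ℝ)| * 2 ^ k * Real.exp (240 / c) := by gcongr
      _ = _ := by ring

/-- The terms of a divergent trajectory are distinct. -/
lemma inj_of_divergent {n : ℤ} (h : Filter.Tendsto (fun k => |T^[k] n|) Filter.atTop Filter.atTop) :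
    ∀ i j : ℕ, T^[i] n = T^[j] n → i = j := by
  have key : ∀ i j : ℕ, i < j → T^[i] n ≠ T^[j] n := by
    intro i j hij heq
    obtain ⟨d, rfl⟩ : ∃ d, j = d + i := ⟨j - i, by omega⟩
    have hd : T^[d] (T^[i] n) = T^[i] n := by rw [← Function.iterate_add_apply, heq]
    have hper : ∀ m : ℕ, T^[m * d + i] n = T^[i] n := by
      intro m
      rw [Function.iterate_add_apply, mul_comm, Function.iterate_mul]
      exact Function.iterate_fixed hd m
    have h1 := (Filter.tendsto_atTop.1 h (|T^[i] n| + 1)).exists_forall_of_atTop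
    obtain ⟨N, hN⟩ := h1
    have h2 := hN (N * d + i) (by nlinarith [Nat.zero_le i, (by omega : 1 ≤ d)])
    rw [hper] at h2
    omega
  intro i j hij
  rcases lt_trichotomy i j with h1 | h1 | h1
  · exact absurd hij (key i j h1)
  · exact h1
  · exact absurd hij.symm (key j i h1)

theorem sum_ratio {c C : ℝ} (hc : 0 < c) (hC : 0 < C) (hD : Dens c C) {n : ℤ} (hn : n ≠ 0) (K : ℕ)
    (hinj : ∀ i < K, ∀ j < K, T^[i] n = T^[j] n → i = j) :
    ∑ k ∈ range K, (2 : ℝ) ^ k / 3 ^ odds n k ≤ Real.exp (240 / c) * (240 / c) * |(n : ℝ)| := by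
  have hsum := (growth hc hC hD hn K hinj).1
  have hterm : ∀ k ∈ range K, (2 : ℝ) ^ k / 3 ^ odds n k ≤
      Real.exp (240 / c) * |(n : ℝ)| * (1 / |(T^[k] n : ℝ)|) := by
    intro k hk
    have hkK := mem_range.1 hk
    obtain ⟨_, g1, _⟩ := growth hc hC hD hn k
      (fun i hi j hj => hinj i (hi.trans hkK) j (hj.trans hkK))
    have h0 : (0 : ℝ) < |(T^[k] n : ℝ)| := by
      have := iter_ne_zero hn k
      have : ((T^[k] n : ℤ) : ℝ) ≠ 0 := by exact_mod_cast this
      positivity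
    rw [mul_one_div, div_le_div_iff₀ (by positivity) h0]
    nlinarith
  calc ∑ k ∈ range K, (2 : ℝ) ^ k / 3 ^ odds n k
      ≤ ∑ k ∈ range K, Real.exp (240 / c) * |(n : ℝ)| * (1 / |(T^[k] n : ℝ)|) := sum_le_sum hterm
    _ = Real.exp (240 / c) * |(n : ℝ)| * ∑ k ∈ range K, 1 / |(T^[k] n : ℝ)| := by rw [mul_sum]
    _ ≤ Real.exp (240 / c) * |(n : ℝ)| * (240 / c) := by gcongr
    _ = _ := by ring

/-- Divergent trajectories have a summable ratio sequence. -/
theorem divergent {c C : ℝ} (hc : 0 < c) (hC : 0 < C) (hD : Dens c C) {n : ℤ}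
    (h : Filter.Tendsto (fun k => |T^[k] n|) Filter.atTop Filter.atTop) :
    Summable (fun k => (2 : ℝ) ^ k / 3 ^ odds n k) ∧
    ∑' k, (2 : ℝ) ^ k / 3 ^ odds n k ≤ Real.exp (240 / c) * (240 / c) * |(n : ℝ)| := by
  have hn : n ≠ 0 := by
    rintro rfl
    have h0 : ∀ k : ℕ, T^[k] 0 = 0 := fun k => Function.iterate_fixed (by rfl) k
    have h1 := (Filter.tendsto_atTop.1 h 1).exists
    obtain ⟨k, hk⟩ := h1
    rw [h0] at hk
    simp at hk
  have hinj := inj_of_divergent h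
  have hb : ∀ K : ℕ, ∑ k ∈ range K, (2 : ℝ) ^ k / 3 ^ odds n k ≤
      Real.exp (240 / c) * (240 / c) * |(n : ℝ)| :=
    fun K => sum_ratio hc hC hD hn K (fun i _ j _ => hinj i j)
  have hs : Summable (fun k => (2 : ℝ) ^ k / 3 ^ odds n k) :=
    summable_of_sum_range_le (fun _ => by positivity) hb
  exact ⟨hs, Real.tsum_le_of_sum_range_le (fun _ => by positivity) hb⟩

end Pool.Agent.H85.RS
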