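import Pool.Agent.H85.RS.Basic

/-!
# Reciprocal sums over families of pairwise disjoint trajectories
-/

set_option autoImplicit false

namespace Pool.Agent.H85.RS

open Finset Pool.Agent.H30

lemma exists_odd_part {e : ℤ} (he : e ≠ 0) : ∃ (j : ℕ) (o : ℤ), o % 2 = 1 ∧ e = 2 ^ j * o := by
  obtain ⟨m, hm⟩ : ∃ m : ℕ, e.natAbs = m := ⟨_, rfl⟩
  induction m using Nat.strong_induction_on generalizing e with
  | _ m ih =>
  by_cases h : e % 2 = 1
  · exact ⟨0, e, h, by simp⟩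
  · obtain ⟨f, rfl⟩ : ∃ f, e = 2 * f := ⟨e / 2, by omega⟩
    obtain ⟨j, o, h1, h2⟩ := ih f.natAbs (by omega) (e := f) (by omega) rfl
    exact ⟨j + 1, o, h1, by rw [h2]; ring⟩

lemma iter_two_pow (j : ℕ) (o : ℤ) : T^[j] (2 ^ j * o) = o := by
  induction j with
  | zero => simp
  | succ j ih =>
    rw [Function.iterate_succ_apply]
    have h1 : (2 : ℤ) ^ (j + 1) * o = 2 * (2 ^ j * o) := by ring
    rw [h1, T_even (by omega)]
    have h2 : 2 * (2 ^ j * o) / 2 = 2 ^ j * o := by omega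
    rw [h2, ih]

/-- the exponent of 2 -/
noncomputable def ov (e : ℤ) : ℕ := by
  classical
  exact if h : e ≠ 0 then (exists_odd_part h).choose else 0

/-- the odd part -/
noncomputable def op (e : ℤ) : ℤ := by
  classical
  exact if h : e ≠ 0 then (exists_odd_part h).choose_spec.choose else 1

lemma op_odd (e : ℤ) : op e % 2 = 1 := by
  unfold op
  split_ifs with h
  · exact (exists_odd_part h).choose_spec.choose_spec.1
  · rfl

lemma eq_op {e : ℤ} (h : e ≠ 0) : e = 2 ^ ov e * op e := by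
  unfold ov op
  rw [dif_pos h, dif_pos h]
  exact (exists_odd_part h).choose_spec.choose_spec.2

lemma iter_op {e : ℤ} (h : e ≠ 0) : T^[ov e] e = op e := by
  conv_lhs => rw [eq_op h]
  rw [show (2 : ℤ) ^ ov e * op e = 2 ^ ov e * op e from rfl]
  have h1 : ov (2 ^ ov e * op e) = ov e := by rw [← eq_op h]
  rw [h1]
  exact iter_two_pow _ _

lemma sum_half_le (J : Finset ℕ) : ∑ j ∈ J, ((1 : ℝ) / 2) ^ j ≤ 2 := by
  have := Summable.sum_le_tsum J (fun j _ => by positivity) summable_geometric_two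
  rwa [tsum_geometric_two] at this

/-- Passing to odd parts. -/
theorem sum_le_odd (F : Finset ℤ) (hF : ∀ e ∈ F, e ≠ 0) :
    ∑ e ∈ F, 1 / |(e : ℝ)| ≤ 2 * ∑ o ∈ F.image op, 1 / |(o : ℝ)| := by
  classical
  rw [← sum_fiberwise_of_maps_to (s := F) (t := F.image op) (g := op)
    (fun e he => mem_image_of_mem op he), mul_sum]
  refine sum_le_sum fun o _ => ?_
  have h1 : ∑ e ∈ F with op e = o, 1 / |(e : ℝ)| =
      ∑ e ∈ F with op e = o, ((1 : ℝ) / 2) ^ ov e * (1 / |(o : ℝ)|) := by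
    refine sum_congr rfl fun e he => ?_
    obtain ⟨he1, he2⟩ := mem_filter.1 he
    have h2 : (e : ℝ) = 2 ^ ov e * (o : ℝ) := by
      have := eq_op (hF e he1)
      rw [he2] at this
      exact_mod_cast this
    rw [h2, abs_mul, abs_of_pos (by positivity : (0 : ℝ) < 2 ^ ov e), one_div_pow, div_mul_div_comm,
      one_mul]
  rw [h1, ← sum_mul]
  have h3 : ∑ e ∈ F with op e = o, ((1 : ℝ) / 2) ^ ov e =
      ∑ j ∈ (F.filter fun e => op e = o).image ov, ((1 : ℝ) / 2) ^ j := by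
    rw [sum_image]
    intro e he f hf hef
    have he' := mem_filter.1 he
    have hf' := mem_filter.1 hf
    rw [eq_op (hF e he'.1), eq_op (hF f hf'.1), he'.2, hf'.2, hef]
  rw [h3]
  have h4 : 0 ≤ 1 / |(o : ℝ)| := by positivity
  exact mul_le_mul_of_nonneg_right (sum_half_le _) h4

/-- periodic points -/
def Per : Set ℤ := {a | ∃ p : ℕ, 1 ≤ p ∧ T^[p] a = a}

lemma Per_T {a : ℤ} (ha : a ∈ Per) : T a ∈ Per := by
  obtain ⟨p, hp, h⟩ := ha
  refine ⟨p, hp, ?_⟩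
  rw [← Function.iterate_succ_apply, Function.iterate_succ_apply', h]

lemma Per_iter {a : ℤ} (ha : a ∈ Per) (k : ℕ) : T^[k] a ∈ Per := by
  induction k with
  | zero => simpa
  | succ k ih => rw [Function.iterate_succ_apply']; exact Per_T ih

lemma not_Per_three {a : ℤ} (h : a % 2 = 1) (ha : a ∈ Per) : 3 * a + 1 ∉ Per := by
  rintro ⟨q, hq, h2⟩
  obtain ⟨p, hp, h1⟩ := ha
  have := per_inj hp hq h1 h2 (T_three_mul h).symm
  omega

theorem sum_per_odd {c C : ℝ} (hc : 0 < c) (hC : 0 < C) (hD : Dens c C) (F : Finset ℤ)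
    (hF : ∀ a ∈ F, a ∈ Per ∧ a % 2 = 1) : ∑ a ∈ F, 1 / |(a : ℝ)| ≤ 12 / c :=
  sum_inv_le hc hC hD Per (fun _ => Per_T) F
    (fun a ha => ⟨(hF a ha).1, (hF a ha).2, not_Per_three (hF a ha).2 (hF a ha).1⟩)

theorem sum_per {c C : ℝ} (hc : 0 < c) (hC : 0 < C) (hD : Dens c C) (F : Finset ℤ)
    (hF : ∀ a ∈ F, a ∈ Per ∧ a ≠ 0) : ∑ a ∈ F, 1 / |(a : ℝ)| ≤ 24 / c := by
  classical
  refine (sum_le_odd F fun e he => (hF e he).2).trans ?_
  have := sum_per_odd hc hC hD (F.image op) (by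
    intro a ha
    obtain ⟨e, he, rfl⟩ := mem_image.1 ha
    refine ⟨?_, op_odd e⟩
    rw [← iter_op (hF e he).2]
    exact Per_iter (hF e he).1 _)
  calc 2 * ∑ o ∈ F.image op, 1 / |(o : ℝ)| ≤ 2 * (12 / c) := by linarith
    _ = 24 / c := by ring

/-- **Reciprocal sums.** The sum of the reciprocals of all nonzero elements of all trajectories of a family of integers
with pairwise disjoint trajectories is bounded by an absolute constant. -/
theorem recip {c C : ℝ} (hc : 0 < c) (hC : 0 < C) (hD : Dens c C) (S : Set ℤ)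
    (hS : ∀ m ∈ S, ∀ n ∈ S, m ≠ n → ∀ i j : ℕ, T^[i] m ≠ T^[j] n) (F : Finset ℤ)
    (hF : ∀ a ∈ F, a ≠ 0 ∧ ∃ n ∈ S, ∃ k : ℕ, T^[k] n = a) :
    ∑ a ∈ F, 1 / |(a : ℝ)| ≤ 240 / c := by
  classical
  obtain ⟨A, hAdef⟩ : ∃ A : Set ℤ, A = {a | ∃ n ∈ S, ∃ k : ℕ, T^[k] n = a} := ⟨_, rfl⟩
  have hmemA : ∀ a, a ∈ A ↔ ∃ n ∈ S, ∃ k : ℕ, T^[k] n = a := by intro a; rw [hAdef]; rfl
  have hA : ∀ a ∈ A, T a ∈ A := by
    intro a ha
    obtain ⟨n, hn, k, rfl⟩ := (hmemA a).1 ha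
    exact (hmemA _).2 ⟨n, hn, k + 1, Function.iterate_succ_apply' _ _ _⟩
  have hAk : ∀ a ∈ A, ∀ k : ℕ, T^[k] a ∈ A := by
    intro a ha k
    induction k with
    | zero => simpa
    | succ k ih => rw [Function.iterate_succ_apply']; exact hA _ ih
  -- two elements of `A` with the same image
  have hpair : ∀ a ∈ A, ∀ b ∈ A, a ≠ b → T a = T b → a ∈ Per ∨ b ∈ Per := by
    intro a ha b hb hab h
    obtain ⟨m, hm, p, hp⟩ := (hmemA a).1 ha
    obtain ⟨n, hn, q, hq⟩ := (hmemA b).1 hb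
    have hmn : m = n := by
      by_contra hmn
      apply hS m hm n hn hmn (p + 1) (q + 1)
      rw [Function.iterate_succ_apply', Function.iterate_succ_apply', hp, hq, h]
    subst hmn
    have key : ∀ (a b : ℤ) (p q : ℕ), T^[p] m = a → T^[q] m = b → T a = T b → p < q → b ∈ Per := by
      intro a b p q hp hq h hpq
      obtain ⟨d, rfl⟩ : ∃ d, q = d + (p + 1) := ⟨q - (p + 1), by omega⟩
      have h3 : T^[p + 1] m = T a := by rw [Function.iterate_succ_apply', hp]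
      rw [Function.iterate_add_apply, h3] at hq
      rw [← hq]
      apply Per_iter
      refine ⟨d + 1, by omega, ?_⟩
      rw [Function.iterate_succ_apply', hq, h]
    rcases lt_trichotomy p q with h1 | h1 | h1
    · exact Or.inr (key a b p q hp hq h h1)
    · subst h1
      exact absurd (hp.symm.trans hq) hab
    · exact Or.inl (key b a q p hq hp h.symm h1)
  refine (sum_le_odd F fun e he => (hF e he).1).trans ?_
  have hG : ∀ o ∈ F.image op, o ∈ A ∧ o % 2 = 1 := by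
    intro o ho
    obtain ⟨e, he, rfl⟩ := mem_image.1 ho
    refine ⟨?_, op_odd e⟩
    rw [← iter_op (hF e he).1]
    exact hAk _ ((hmemA e).2 (hF e he).2) _
  obtain ⟨G, hGdef⟩ : ∃ G : Finset ℤ, G = F.image op := ⟨_, rfl⟩
  rw [← hGdef] at hG ⊢
  have e1 : ∑ o ∈ G, 1 / |(o : ℝ)| = ∑ o ∈ G with o ∈ Per, 1 / |(o : ℝ)| +
      ∑ o ∈ G with o ∉ Per, 1 / |(o : ℝ)| := (sum_filter_add_sum_filter_not _ _ _).symm
  have e2 : ∑ o ∈ G with o ∉ Per, 1 / |(o : ℝ)| =
      ∑ o ∈ (G.filter fun o => o ∉ Per) with 3 * o + 1 ∉ A, 1 / |(o : ℝ)| +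
      ∑ o ∈ (G.filter fun o => o ∉ Per) with ¬ (3 * o + 1 ∉ A), 1 / |(o : ℝ)| :=
    (sum_filter_add_sum_filter_not _ _ _).symm
  have b1 : ∑ o ∈ G with o ∈ Per, 1 / |(o : ℝ)| ≤ 12 / c :=
    sum_per_odd hc hC hD _ (fun a ha => ⟨(mem_filter.1 ha).2, (hG a (mem_filter.1 ha).1).2⟩)
  have b2 : ∑ o ∈ (G.filter fun o => o ∉ Per) with 3 * o + 1 ∉ A, 1 / |(o : ℝ)| ≤ 12 / c := by
    refine sum_inv_le hc hC hD A hA _ ?_
    intro a ha
    obtain ⟨h1, h2⟩ := mem_filter.1 ha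
    obtain ⟨h3, _⟩ := mem_filter.1 h1
    exact ⟨(hG a h3).1, (hG a h3).2, h2⟩
  have b3 : ∑ o ∈ (G.filter fun o => o ∉ Per) with ¬ (3 * o + 1 ∉ A), 1 / |(o : ℝ)| ≤
      4 * (24 / c) := by
    obtain ⟨G3, hG3⟩ : ∃ G3, G3 = (G.filter fun o => o ∉ Per).filter fun o => ¬ (3 * o + 1 ∉ A) :=
      ⟨_, rfl⟩
    rw [← hG3]
    have hm : ∀ o ∈ G3, o % 2 = 1 ∧ 3 * o + 1 ∈ Per := by
      intro o ho
      rw [hG3] at ho
      obtain ⟨h1, h2⟩ := mem_filter.1 ho
      obtain ⟨h3, h4⟩ := mem_filter.1 h1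
      refine ⟨(hG o h3).2, ?_⟩
      rcases hpair o (hG o h3).1 (3 * o + 1) (not_not.1 h2) (by have := (hG o h3).2; omega)
        (T_three_mul (hG o h3).2).symm with h | h
      · exact absurd h h4
      · exact h
    have h5 : ∑ o ∈ G3, 1 / |(o : ℝ)| ≤ ∑ o ∈ G3, 4 * (1 / |((3 * o + 1 : ℤ) : ℝ)|) := by
      refine sum_le_sum fun o ho => ?_
      have hodd := (hm o ho).1
      have ha0 : (1 : ℝ) ≤ |(o : ℝ)| := by
        have : o ≠ 0 := by omega
        have : (1 : ℤ) ≤ |o| := Int.one_le_abs this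
        exact_mod_cast this
      have hb0 : (0 : ℝ) < |((3 * o + 1 : ℤ) : ℝ)| := by
        have : (3 * o + 1 : ℤ) ≠ 0 := by omega
        positivity
      have hb1 : |((3 * o + 1 : ℤ) : ℝ)| ≤ 4 * |(o : ℝ)| := by
        push_cast
        calc |3 * (o : ℝ) + 1| ≤ |3 * (o : ℝ)| + |1| := abs_add_le _ _
          _ = 3 * |(o : ℝ)| + 1 := by rw [abs_mul]; simp
          _ ≤ 4 * |(o : ℝ)| := by linarith
      rw [mul_one_div, div_le_div_iff₀ (by linarith) hb0]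
      linarith
    have h6 : ∑ o ∈ G3, 4 * (1 / |((3 * o + 1 : ℤ) : ℝ)|) =
        4 * ∑ b ∈ G3.image (fun o : ℤ => 3 * o + 1), 1 / |((b : ℤ) : ℝ)| := by
      rw [sum_image, mul_sum]
      intro a _ b _ h
      have : 3 * a + 1 = 3 * b + 1 := h
      omega
    have h7 := sum_per hc hC hD (G3.image (fun o : ℤ => 3 * o + 1)) (by
      intro b hb
      obtain ⟨o, ho, rfl⟩ := mem_image.1 hb
      exact ⟨(hm o ho).2, by omega⟩)
    linarith
  have : 2 * (12 / c + (12 / c + 4 * (24 / c))) = 240 / c := by ring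
  linarith

end Pool.Agent.H85.RS
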